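import Pool.Agent.H94.Slab4

open MeasureTheory
open scoped ENNReal

namespace Pool.Agent.Results.MP_bec814_gt.SmallSlabs

/-- Volume of the slab of the cube `[-1,1]^n` of half-width `t` in direction `a`. -/
noncomputable def V {n : ℕ} (a : EuclideanSpace ℝ (Fin n)) (t : ℝ) : ℝ≥0∞ :=
  volume {x : EuclideanSpace ℝ (Fin n) | (∀ j, |x j| ≤ 1) ∧ |inner ℝ x a| ≤ t}

theorem result (n : ℕ) (hn : 2 ≤ n) (t : ℝ) (ht0 : 0 < t) (ht : t ≤ 2 * √2 - 2) :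
    IsLeast {v : ℝ≥0∞ | ∃ a : EuclideanSpace ℝ (Fin n), ‖a‖ = 1 ∧ v = V a t}
      (V (EuclideanSpace.single (⟨0, by omega⟩ : Fin n) (1 : ℝ)) t) := by
  refine ⟨⟨_, by simp, rfl⟩, ?_⟩
  rintro v ⟨a, ha, rfl⟩
  exact Pool.Agent.H94.Slab4.final a ha _ t ht0 ht

end Pool.Agent.Results.MP_bec814_gt.SmallSlabs
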